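import Pool.Agent.H75.PRL.S3

/-!
# PRL, module EIL: a form with a unimodular lattice is isotropic over the completion
-/

set_option autoImplicit false

namespace Pool.Agent.H68.PRL

open Polynomial Matrix Pool.AVR Pool.AVS Pool.RZ Pool.PRL

namespace EIL

theorem bil_congr {K : Type} [Field K] (B g : Matrix (Fin 3) (Fin 3) K) (u v : Fin 3 → K) :
    bil (gᵀ * B * g) u v = bil B (g *ᵥ u) (g *ᵥ v) := by
  unfold bil
  rw [← Matrix.mulVec_mulVec, ← Matrix.mulVec_mulVec, Matrix.dotProduct_mulVec,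
    Matrix.vecMul_transpose]

theorem map_congr {K L : Type} [Field K] [Field L] (ι : K →+* L)
    (G g : Matrix (Fin 3) (Fin 3) K) :
    (gᵀ * G * g).map ι = (g.map ι)ᵀ * G.map ι * g.map ι := by
  rw [Matrix.map_mul, Matrix.map_mul, Matrix.transpose_map]

theorem map_det {K L : Type} [Field K] [Field L] (ι : K →+* L)
    (G : Matrix (Fin 3) (Fin 3) K) : (G.map ι).det = ι G.det :=
  (RingHom.map_det ι G).symm

theorem sq_mem {L : Type} [Field L] (O : ValuationSubring L) {x : L} (hx : x ^ 2 ∈ O) :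
    x ∈ O := by
  rcases O.mem_or_inv_mem x with h3 | h3
  · exact h3
  · by_cases hx0 : x = 0
    · rw [hx0]; exact O.zero_mem
    · have := O.mul_mem _ _ hx h3
      rwa [pow_two, mul_assoc, mul_inv_cancel₀ hx0, mul_one] at this

end EIL

open EIL in
theorem eil_thm (hNFO : NFOStmt) : EILStmt := by
  intro F _ I ϖ L _ O ι hC G ε hG hε hdet ⟨g, hg, hGI, hGd⟩
  have hGtdet : (gᵀ * G * g).det = -(ε * g.det) ^ 2 := by
    rw [Matrix.det_mul, Matrix.det_mul, Matrix.det_transpose, hdet]; ring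
  have hι : ∀ x : RatFunc F, ι x = 0 → x = 0 := fun x hx =>
    (map_eq_zero ι).1 hx
  have hsymm : ((gᵀ * G * g).map ι)ᵀ = (gᵀ * G * g).map ι := by
    rw [← Matrix.transpose_map]
    congr 1
    rw [Matrix.transpose_mul, Matrix.transpose_mul, Matrix.transpose_transpose, hG,
      Matrix.mul_assoc]
  have hMI : MI (O : Set L) ((gᵀ * G * g).map ι) := fun i j => by
    rw [Matrix.map_apply]
    exact (hC.mem _).2 (hGI i j)
  have hdet' : ((gᵀ * G * g).map ι).det = -(ι (ε * g.det)) ^ 2 := by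
    rw [map_det, hGtdet]; simp
  have hU : UI (O : Set L) (ι (ε * g.det)) := by
    obtain ⟨h0, h1, h2⟩ := hGd
    rw [hGtdet] at h1 h2
    refine ⟨fun h => ?_, ?_, ?_⟩
    · exact mul_ne_zero hε hg (hι _ h)
    · apply sq_mem
      have h3 : ι (-(ε * g.det) ^ 2) ∈ O := (hC.mem _).2 h1
      have := neg_mem h3
      rwa [← map_neg, neg_neg, map_pow] at this
    · apply sq_mem
      have h3 : ι ((-(ε * g.det) ^ 2)⁻¹) ∈ O := (hC.mem _).2 h2
      have := neg_mem h3
      rwa [← map_neg, inv_neg, neg_neg, map_inv₀, map_pow, ← inv_pow] at this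
  obtain ⟨κ, hκ, hκA⟩ := hNFO L O (ι ϖ) hC.loc _ _ hsymm hMI hU hdet'
  refine ⟨(g.map ι) *ᵥ (κ *ᵥ ![1, 0, 0]), ?_, ?_⟩
  · intro h
    have hgu : IsUnit (g.map ι) := by
      rw [Matrix.isUnit_iff_isUnit_det, isUnit_iff_ne_zero, map_det]
      exact fun h => hg (hι _ h)
    have hκu : IsUnit κ := by
      rw [Matrix.isUnit_iff_isUnit_det, isUnit_iff_ne_zero]
      exact hκ.2.1
    have h1 : κ *ᵥ ![1, 0, 0] = 0 :=
      Matrix.mulVec_injective_of_isUnit hgu (by rw [h, Matrix.mulVec_zero])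
    have h2 : (![1, 0, 0] : Fin 3 → L) = 0 :=
      Matrix.mulVec_injective_of_isUnit hκu (by rw [h1, Matrix.mulVec_zero])
    have := congrFun h2 0
    simp at this
  · rw [← bil_congr, ← EIL.map_congr, ← bil_congr, hκA]
    simp [bil, AA, Matrix.mulVec, dotProduct, Fin.sum_univ_three]

end Pool.Agent.H68.PRL
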