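import Pool.Agent.H75.PRL.S3
import Pool.Agent.H14.AVS.S3
import Pool.Agent.H68.PRL.EIL

/-!
# PRL, module HRS: reciprocity for the types of a ternary form
-/

set_option autoImplicit false

namespace Pool.Agent.H68.PRL

open Polynomial Matrix Pool.AVR Pool.AVS Pool.RZ Pool.PRL

namespace HRS

theorem iso_congr {L : Type} [Field L] (G g : Matrix (Fin 3) (Fin 3) L) (hg : g.det ≠ 0) :
    IsoM (gᵀ * G * g) ↔ IsoM G := by
  constructor
  · rintro ⟨z, hz, h⟩
    refine ⟨g *ᵥ z, fun h0 => hz ?_, ?_⟩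
    · exact Matrix.mulVec_injective_of_isUnit
        ((Matrix.isUnit_iff_isUnit_det _).2 (isUnit_iff_ne_zero.2 hg))
        (by rw [h0, Matrix.mulVec_zero])
    · rw [← EIL.bil_congr]; exact h
  · rintro ⟨z, hz, h⟩
    have hu : IsUnit g.det := isUnit_iff_ne_zero.2 hg
    have h1 : g *ᵥ (g⁻¹ *ᵥ z) = z := by
      rw [Matrix.mulVec_mulVec, Matrix.mul_nonsing_inv _ hu, Matrix.one_mulVec]
    refine ⟨g⁻¹ *ᵥ z, fun h0 => hz ?_, ?_⟩
    · rw [← h1, h0, Matrix.mulVec_zero]
    · rw [EIL.bil_congr, h1]; exact h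

theorem iso_diag {L : Type} [Field L] (a b : L) :
    IsoM (Matrix.diagonal ![a, b, -(a * b)]) ↔ Iso2 a b := by
  have key : ∀ z : Fin 3 → L, bil (Matrix.diagonal ![a, b, -(a * b)]) z z =
      a * z 0 ^ 2 + b * z 1 ^ 2 - a * b * z 2 ^ 2 := by
    intro z
    simp [bil, Matrix.mulVec_diagonal, dotProduct, Fin.sum_univ_three]
    ring
  constructor
  · rintro ⟨z, hz, h⟩
    rw [key] at h
    refine ⟨z 0, z 1, z 2, ?_, by linear_combination h⟩
    by_contra hc
    push Not at hc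
    apply hz
    funext i
    fin_cases i
    · exact hc.1
    · exact hc.2.1
    · exact hc.2.2
  · rintro ⟨x, y, z, hne, h⟩
    refine ⟨![x, y, z], fun h0 => ?_, ?_⟩
    · have h1 := congrFun h0 0
      have h2 := congrFun h0 1
      have h3 := congrFun h0 2
      simp at h1 h2 h3
      rcases hne with h4 | h4 | h4
      · exact h4 h1
      · exact h4 h2
      · exact h4 h3
    · rw [key]
      simp
      linear_combination h

theorem iso_iff {F : Type} [Field F] {L : Type} [Field L] (ι : RatFunc F →+* L)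
    (G g : Matrix (Fin 3) (Fin 3) (RatFunc F)) (a b : F[X]) (hg : g.det ≠ 0)
    (h : gᵀ * G * g = Matrix.diagonal ![rf a, rf b, -rf (a * b)]) :
    IsoM (G.map ι) ↔ Iso2 (ι (rf a)) (ι (rf b)) := by
  have h1 : (g.map ι).det ≠ 0 := by
    rw [EIL.map_det]
    exact fun h => hg ((map_eq_zero ι).1 h)
  rw [← iso_congr (G.map ι) (g.map ι) h1, ← EIL.map_congr, h, ← iso_diag]
  have h2 : (Matrix.diagonal ![rf a, rf b, -rf (a * b)]).map ι =
      Matrix.diagonal ![ι (rf a), ι (rf b), -(ι (rf a) * ι (rf b))] := by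
    rw [Matrix.diagonal_map (map_zero ι)]
    congr 1
    funext i
    fin_cases i <;> simp
  rw [h2]

/-- The place of `P`. -/
noncomputable def plc {F : Type} [Field F] (P : F[X]) (hP : Irreducible P) :
    IsDedekindDomain.HeightOneSpectrum F[X] where
  asIdeal := Ideal.span {P}
  isPrime := (Ideal.span_singleton_prime hP.ne_zero).2 hP.prime
  ne_bot := by rw [Ne, Ideal.span_singleton_eq_bot]; exact hP.ne_zero

end HRS

open HRS in
theorem hrs_thm (hDIA : DIAStmt) (hHPF : HPFStmt) (hLHS : LHSStmt) (hLHI : LHIStmt)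
    (hEIL : EILStmt) (hOAL : OALStmt) (hCPP : CPPStmt) (hCPI : CPIStmt) : HRSStmt := by
  intro F _ _ h2 T G ε hG hε hdet hT hout hinf hin
  obtain ⟨a, b, g, ha, hb, hg, hd⟩ := hDIA F h2 G ε hG hε hdet
  obtain ⟨-, hpar⟩ := hHPF F h2 a b ha hb
  have hE : ∀ P : F[X], P.Monic → Irreducible P → EL (IP P) G → HbP P a b := by
    intro P hPm hPi hEL
    have hC := hCPP F h2 P hPm hPi (plc P hPi) rfl
    exact (hLHS F h2 P hPm hPi _ _ _ hC a b ha hb).1
      ((iso_iff _ G g a b hg hd).1 (hEIL F _ _ _ _ _ hC G ε hG hε hdet hEL))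
  have hO : ∀ P : F[X], P.Monic → Irreducible P → OAP P G → ¬ HbP P a b := by
    intro P hPm hPi hOA hHb
    have hC := hCPP F h2 P hPm hPi (plc P hPi) rfl
    exact hOAL F P hPi _ _ _ hC G hG hOA
      ((iso_iff _ G g a b hg hd).2 ((hLHS F h2 P hPm hPi _ _ _ hC a b ha hb).2 hHb))
  have hI : HbI a b := by
    have hC := hCPI F h2
    exact (hLHI F h2 _ _ _ hC a b ha hb).1
      ((iso_iff _ G g a b hg hd).1 (hEIL F _ _ _ _ _ hC G ε hG hε hdet hinf))
  have hset : {P | P ∈ T ∧ OAP P G} = {P : F[X] | P.Monic ∧ Irreducible P ∧ ¬ HbP P a b} := by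
    ext P
    constructor
    · rintro ⟨hPT, hOA⟩
      exact ⟨(hT P hPT).1, (hT P hPT).2, hO P (hT P hPT).1 (hT P hPT).2 hOA⟩
    · rintro ⟨hPm, hPi, hnH⟩
      by_cases hPT : P ∈ T
      · refine ⟨hPT, ?_⟩
        rcases hin P hPT with h | h
        · exact absurd (hE P hPm hPi h) hnH
        · exact h
      · exact absurd (hE P hPm hPi (hout P hPm hPi hPT)) hnH
  rw [hset]
  exact hpar.2 hI

end Pool.Agent.H68.PRL
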